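import Pool.Agent.Helper36.CQ.St

/-!
# Project CQ (MP_f663dd_lc), module COL: the transfer property gives the finite colouring property
-/

set_option autoImplicit false

namespace Pool.Agent.Helper44.CQ

open Cardinal Set Pool.Agent.Helper36.CQ
universe u

theorem mCOL : StCol.{u} := by
  intro α γ μ hγ hle hT F
  classical
  obtain ⟨q⟩ : Nonempty (γ ↪ α) := (Cardinal.le_def _ _).1 hle
  let L : FirstOrder.Language.{0, 0} := ⟨fun _ => Unit, fun _ => Empty⟩
  letI str : L.Structure α :=
    { funMap := fun {n} _ x => q (F (Finset.univ.image x))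
      RelMap := fun {n} r => r.elim }
  have hL : L.card ≤ ℵ₀ := by
    have hc : Countable L.Symbols := by
      have h1 : Countable (Σ n, L.Functions n) := by
        have : ∀ n, Countable (L.Functions n) := fun n => (inferInstance : Countable Unit)
        infer_instance
      have h2 : Countable (Σ n, L.Relations n) := by
        have : ∀ n, Countable (L.Relations n) := fun n => (inferInstance : Countable Empty)
        infer_instance
      exact (inferInstance : Countable ((Σ n, L.Functions n) ⊕ (Σ n, L.Relations n)))
    exact Cardinal.mk_le_aleph0_iff.2 hc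
  obtain ⟨S, hS, hSU⟩ := hT L α (range q) hL rfl (by rw [mk_range_eq q q.injective, hγ])
  refine ⟨(S : Set α), by rw [hγ]; exact hS, ?_⟩
  have key : ∀ s : Finset α, (s : Set α) ⊆ (S : Set α) → q (F s) ∈ (S : Set α) := by
    intro s hs
    have h3 : q (F s) = FirstOrder.Language.Structure.funMap (L := L) (M := α) (n := s.card)
        (() : L.Functions s.card) (fun i => ((s.equivFin.symm i : s) : α)) := by
      have h4 : (Finset.univ.image (fun i => ((s.equivFin.symm i : s) : α))) = s := by
        ext a
        simp only [Finset.mem_image, Finset.mem_univ, true_and]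
        constructor
        · rintro ⟨i, rfl⟩
          exact (s.equivFin.symm i).2
        · intro ha
          exact ⟨s.equivFin ⟨a, ha⟩, by simp⟩
      change q (F s) = q (F (Finset.univ.image (fun i => ((s.equivFin.symm i : s) : α))))
      rw [h4]
    rw [h3]
    exact S.toSubstructure.fun_mem () _ (fun i => hs (s.equivFin.symm i).2)
  have hsub : q '' (F '' {s : Finset α | (s : Set α) ⊆ (S : Set α)}) ⊆
      ((S : Set α) ∩ range q) := by
    rintro _ ⟨_, ⟨s, hs, rfl⟩, rfl⟩
    exact ⟨key s hs, mem_range_self _⟩
  have h5 : #(F '' {s : Finset α | (s : Set α) ⊆ (S : Set α)} : Set γ) ≤ μ := by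
    rw [← mk_image_eq (s := F '' {s : Finset α | (s : Set α) ⊆ (S : Set α)}) q.injective, ← hSU]
    exact mk_le_mk_of_subset hsub
  rw [hγ]
  exact lt_of_le_of_lt h5 (Order.lt_succ μ)

end Pool.Agent.Helper44.CQ
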